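import Pool.Agent.P.MP_ebbeae_al.Fin

set_option autoImplicit false
set_option linter.style.haveILetI false
set_option linter.unusedSectionVars false
set_option linter.unusedSimpArgs false

open Classical Finset Polynomial
open Pool.Agent.P.MP_ebbeae_al

namespace Pool.Agent.P.MP_1a5b27_al

variable {G : Type} [Group G] [Fintype G] {O : ValuationSubring ℂ} {p : ℕ}

/-- Orthogonality of the symmetrised characters at elements which are not fused. -/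
theorem zero {b : GA (kk O) G} {D : Subgroup G} {e : GA (kk O) G} (s : Src p b D e)
    (hp : p.Prime) (hO : (p : O) ∈ mx O) (hD : IsPGroup p D) {y : G}
    (hctrl : Ctrl D e y) {v : G} (hv : v ∈ D) (hyv : y⁻¹ * v ∈ ⁅D, D⁆) {w : G} (hw : w ∈ D)
    (h0 : ∀ n ∈ NE D e, n * v * n⁻¹ ≠ w) :
    ∑ χ ∈ irr (⊤ : Subgroup G), s.cS χ v * s.cS χ w⁻¹ = 0 := by
  have hpv := PE_of_mem hD hv
  have hQ : Good D y (Subgroup.zpowers v) := ⟨Subgroup.zpowers_le.2 hv,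
    Subgroup.zpowers_le.2 (mem_CC_zpowers.2 rfl), v, Subgroup.mem_zpowers v, hyv⟩
  have hE := s.blk _ hQ.1
  let a : G → GA O G := fun n => lc v (cj n⁻¹ s.i)
  have ha : ∀ n ∈ NE D e, a n ∈ Sup O (CC (Subgroup.zpowers v)) ∧ a n * a n = a n ∧
      lf (s.E (Subgroup.zpowers v)) * a n = a n ∧ ∀ f, ClassOn ⊤ f →
      JJ s.i f (n * v * n⁻¹) = ev f (sg v * a n) := by
    intro n hn
    have h1 : cj n⁻¹ s.i ∈ Fix O D := by
      have := cj_mem_Fix s.prim.1 n⁻¹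
      rwa [((NE D e).inv_mem hn).1] at this
    have h2 : cj n⁻¹ s.i * cj n⁻¹ s.i = cj n⁻¹ s.i := by rw [← cj_mul, s.prim.2.1]
    obtain ⟨b1, b2, b3, b4⟩ := lc_spec hp hO (Subgroup.mem_top _) hpv (mem_Sup_top _) h2 (h1 v hv)
    rw [top_inf_eq] at b1
    have h3 : cs n (Subgroup.zpowers v) ≤ D := (cs_mono hQ.1).trans hn.1.le
    refine ⟨b1, b2, lf_mul hE.1 b1 b2 ?_, fun f hf => ?_⟩
    · have := congrArg (cj n⁻¹) (s.iE _ h3)
      rwa [cj_mul, cj_br, s.inv _ (inv_mem hn) _ h3, cs_inv_cs, ← red_cj, ← b3] at this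
    · rw [← b4 f hf, JJ, ← hf.ev_cj (mem_Sup_top _) (h := n⁻¹) trivial, cj_mul, cj_sg]
      simp [mul_assoc]
  have hT : ∀ q ∈ TT D e, q.out ∈ NE D e := fun q hq => (mem_filter.1 hq).2
  let F : G → ℂ := fun w => ∑ χ ∈ irr (⊤ : Subgroup G), s.cS χ v * JJ s.i χ w⁻¹
  have hF : ∀ w, F w = ∑ q ∈ TT D e, ∑ χ ∈ irr (⊤ : Subgroup G),
      ev χ (sg v * a q.out) * JJ s.i χ w⁻¹ := fun w => by
    simp only [F, Src.cS, Finset.sum_mul]
    rw [Finset.sum_comm]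
    exact Finset.sum_congr rfl fun q hq => Finset.sum_congr rfl fun χ hχ => by
      rw [((ha _ (hT q hq)).2.2.2 χ (irr_cls hχ))]
  have F2 : ∀ w ∈ D, F w ≠ 0 → ∃ n ∈ NE D e, n * v * n⁻¹ = w := by
    intro w hw
    contrapose!
    intro h0
    rw [hF]
    refine Finset.sum_eq_zero fun q hq => ?_
    obtain ⟨b1, b2, b3, -⟩ := ha _ (hT q hq)
    have hw' := Subgroup.zpowers_le.2 hw
    obtain ⟨c1, -, c2, c3, -⟩ := s.iq_spec hp hO hD hw'
    have c4 := (lc_spec hp hO (Subgroup.mem_top _) (PE_of_mem hD hw).inv (mem_Sup_top _) s.prim.2.1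
      (s.prim.1 _ (D.inv_mem hw))).2.2.2
    rw [lc, Subgroup.zpowers_inv] at c4
    rw [Finset.sum_congr rfl fun χ hχ => by rw [JJ, c4 χ (irr_cls hχ)]]
    refine kzero hp hO (Subgroup.mem_top _) (Subgroup.mem_top _) hpv (PE_of_mem hD hw)
      (by rwa [top_inf_eq]) (by rwa [top_inf_eq]) b2 c2 fun h _ e1 => ?_
    have e2 : cs h (Subgroup.zpowers w) = Subgroup.zpowers v := by
      rw [cs_zpowers, ← e1, mul_inv_cancel_right]
    have b4 := s.blk _ hw'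
    rw [← b3, ← Src.iq, ← c3, comm_of_fix hE.1.lf.fix b1, cj_mul, lf_cj b4.1, mul_assoc,
      ← mul_assoc (lf _), lf_orth hE (e2 ▸ b4.cjC h), zero_mul, mul_zero]
    intro e3
    obtain ⟨n, n1, n2, n3⟩ := hctrl _ _ h⁻¹ (Subgroup.le_centralizer_iff_isMulCommutative.1 hQ.2.1)
      hQ.2.2 (s.le _ hQ.1) (by rw [e3, cj_inv_cj, ← e2, cs_inv_cs]; exact s.le _ hw')
    exact h0 n ⟨n1, n2⟩ (by rw [n3 v (Subgroup.mem_zpowers v), mul_assoc, inv_inv, e1]; simp)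
  have e1 : ∑ χ ∈ irr (⊤ : Subgroup G), s.cS χ v * s.cS χ w⁻¹ =
      ∑ q ∈ TT D e, F (q.out * w * q.out⁻¹) := by
    simp only [F]
    rw [Finset.sum_comm]
    refine Finset.sum_congr rfl fun χ _ => ?_
    rw [← Finset.mul_sum]
    simp [Src.cS, mul_assoc]
  rw [e1]
  refine Finset.sum_eq_zero fun q hq => ?_
  by_contra h1
  obtain ⟨n, hn, h2⟩ := F2 _ ((hT q hq).1.le (conj_mem_cs.2 hw)) h1
  exact h0 _ (mul_mem (inv_mem (hT q hq)) hn)
    (by simpa [mul_assoc] using congrArg (fun t => q.out⁻¹ * t * q.out) h2)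

theorem cls_pow {f : G → ℂ} (hf : ClassOn ⊤ f) (k : ℕ) : ClassOn ⊤ fun g => f (g ^ k) :=
  fun a ha y _ => by simp only [conj_pow]; exact hf a ha _ trivial

/-- Brauer: the Galois twist acts on the `p`-part of a subsection only. -/
theorem JJ_pow (hp : p.Prime) (hO : (p : O) ∈ mx O) {k : ℕ} (hk : ¬ p ∣ k)
    (hs : ∀ s : G, preg p s → s ^ k = s) {j : GA O G} (hjj : j * j = j) {v : G} (hv : PE p v)
    (hvj : cj v j = j) (hvj' : cj (v ^ k) j = j) {f : G → ℂ} (hf : ClassOn ⊤ f) :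
    JJ j (fun g => f (g ^ k)) v = JJ j f (v ^ k) := by
  have hv' : PE p (v ^ k) := by
    obtain ⟨N, hN⟩ := hv
    exact ⟨N, by rw [← pow_mul, mul_comm, pow_mul, hN, one_pow]⟩
  obtain ⟨h1, h2, -, h3⟩ := lc_spec hp hO (Subgroup.mem_top _) hv (mem_Sup_top _) hjj hvj
  obtain ⟨-, -, -, h4⟩ := lc_spec hp hO (Subgroup.mem_top _) hv' (mem_Sup_top _) hjj hvj'
  have e : lc (v ^ k) j = lc v j := by rw [lc, lc, zpowers_pow hp hv hk]
  have h5 := hf.shift (Subgroup.mem_top (v ^ k))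
  rw [zpowers_pow hp hv hk] at h5
  have h6 := (cls_pow hf k).shift (Subgroup.mem_top v)
  rw [JJ, JJ, h3 _ (cls_pow hf k), h4 f hf, e, ev_sg_mul, ev_sg_mul, ← sub_eq_zero, ← ev_sub]
  refine proj_van hp hO h1 h2 (fun a ha y hy => ?_) fun s hs' hps => ?_
  · have a1 := h5 a ha y hy
    have a2 := h6 a ha y hy
    simp only at a1 a2 ⊢
    rw [a1, a2]
  · have hc : Commute v s := mem_CC_zpowers.1 hs'.2
    rw [hc.mul_pow, hs s hps, sub_self]

theorem cS_pow {b : GA (kk O) G} {D : Subgroup G} {e : GA (kk O) G} (s : Src p b D e)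
    (hp : p.Prime) (hO : (p : O) ∈ mx O) (hD : IsPGroup p D) {k : ℕ} (hk : ¬ p ∣ k)
    (hs : ∀ s : G, preg p s → s ^ k = s) {v : G} (hv : v ∈ D) {f : G → ℂ} (hf : ClassOn ⊤ f) :
    s.cS (fun g => f (g ^ k)) v = s.cS f (v ^ k) := by
  refine Finset.sum_congr rfl fun q hq => ?_
  have h1 : q.out * v * q.out⁻¹ ∈ D := (mem_filter.1 hq).2.1.le (conj_mem_cs.2 hv)
  rw [JJ_pow hp hO hk hs s.prim.2.1 (PE_of_mem hD h1) (s.prim.1 _ h1) (s.prim.1 _ (pow_mem h1 k)) hf,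
    conj_pow]

end Pool.Agent.P.MP_1a5b27_al
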