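import Pool.Agent.P.MP_1a5b27_al.A

set_option autoImplicit false
set_option linter.style.haveILetI false
set_option linter.unusedSectionVars false
set_option linter.unusedSimpArgs false

open Classical Finset Polynomial
open Pool.Agent.P.MP_ebbeae_al

namespace Pool.Agent.P.MP_1a5b27_al

variable {G : Type} [Group G] [Fintype G] {O : ValuationSubring ℂ} {p : ℕ}

/-- The good elements of the defect group. -/
noncomputable def YY (D : Subgroup G) (e : GA (kk O) G) : Finset G :=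
  (el D).filter fun y => Ctrl D e y ∧ Reg D e y

theorem mem_YY {D : Subgroup G} {e : GA (kk O) G} {y : G} :
    y ∈ YY D e ↔ y ∈ D ∧ Ctrl D e y ∧ Reg D e y := by simp [YY]

theorem data (hp : p.Prime) (hp2 : p ≠ 2) (hO : (p : O) ∈ mx O) {b : GA (kk O) G}
    {D : Subgroup G} (hD : IsPGroup p D) {e : GA (kk O) G} (s : Src p b D e)
    (hT : ¬ p ∣ (TT D e).card) {x : G} (hx : x ∈ YY D e) {χ0 : G → ℂ}
    (h0 : χ0 ∈ irr (⊤ : Subgroup G)) (h0' : ev χ0 s.i ∉ O.nonunits) :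
    ∃ cc : (G → ℂ) → G → ℂ,
      (∀ y ∈ YY D e, ∑ χ ∈ irr (⊤ : Subgroup G), ‖cc χ y‖ ^ 2 = (⁅D, D⁆).relIndex D) ∧
      (∀ y ∈ YY D e, ∀ y' ∈ YY D e, (∀ n ∈ NE D e, y'⁻¹ * (n * y * n⁻¹) ∉ ⁅D, D⁆) →
        ∑ χ ∈ irr (⊤ : Subgroup G), cc χ y * starRingEnd ℂ (cc χ y') = 0) ∧
      (∀ y ∈ YY D e, y ∉ ⁅D, D⁆ → ∑ χ ∈ irr (⊤ : Subgroup G), cc χ y * s.cS χ 1 = 0) ∧
      s.cS χ0 1 ≠ 0 ∧ ((YY D e).card : ℝ) ≤ ∑ y ∈ YY D e, ‖cc χ0 y‖ ^ 2 ∧
      ∀ k, ¬ p ∣ k → (∀ s : G, preg p s → s ^ k = s) → (∀ y ∈ D, y⁻¹ * y ^ k ∈ ⁅D, D⁆) →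
        ∀ y ∈ YY D e, cc (fun g => χ0 (g ^ k)) y = cc χ0 y := by
  have hTT : ∀ q ∈ TT D e, q.out ∈ NE D e := fun q hq => (mem_filter.1 hq).2
  have hcore := fun y (hy : y ∈ YY D e) v => s.core hp hp2 hO hD (mem_YY.1 hy).2.1
    (mem_YY.1 hy).2.2 ⟨χ0, h0, h0'⟩ (v := v)
  have hR : ∀ χ ∈ irr (⊤ : Subgroup G), RR O D (s.cS χ) := fun χ hχ =>
    (RR.sum (TT D e) (fun _ => 1) _ (fun _ _ => O.one_mem)
      fun q hq => (s.chr hχ (hTT q hq)).rr).congr fun _ _ => by simp [Src.cS]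
  have hu : ∀ v ∈ D, s.cS χ0 v ∉ O.nonunits := fun v hv =>
    not_nu_of_sub ((hR χ0 h0).cong hp hO hv (PE_of_mem hD hv)) (by
      simpa [Src.cS, JJ_one] using mul_not_nu (fun h => hT ((nat_nu hp hO _).1 h)) h0')
  have hπ : RR O D s.pS := RR.sum _ _ _ (fun χ hχ => by
    simpa using (s.chr hχ (one_mem _)).rr.ip_char (charOn_one D)) hR
  obtain ⟨σ, hσ, hσ2⟩ := hπ.invsqrt hp hp2 hO hD (fun h => by
    have hx1 := (mem_YY.1 hx).1
    obtain ⟨m, h1, h2, -⟩ := hcore x hx x hx1 (by simp)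
    obtain ⟨Δ, h3, h4⟩ := h2 χ0 h0
    have := add_mem (hπ.cong hp hO hx1 (PE_of_mem hD hx1)) h
    rw [sub_add_cancel, h1, ← Nat.cast_pow, nat_nu hp hO] at this
    exact hu x hx1 (h4 ▸ nu_mul_left (mem_of_intZ h3)
      ((nat_nu hp hO m).2 (hp.dvd_of_dvd_pow this))))
  let cc : (G → ℂ) → G → ℂ := fun χ y => lam D y fun v => s.cS χ v * σ (s.pS v)
  have hmem : ∀ y ∈ YY D e, ∀ d ∈ el ⁅D, D⁆, y * d ∈ D ∧ y⁻¹ * (y * d) ∈ ⁅D, D⁆ :=
    fun y hy d hd => ⟨mul_mem (mem_YY.1 hy).1 (comm_le D (mem_el.1 hd)), by simpa using hd⟩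
  have hq : ∀ v ∈ D, ∀ m : ℕ, s.pS v = m ^ 2 → (σ (s.pS v) * m = 1 ∨ σ (s.pS v) * m = -1) ∧
      ∃ q : ℚ, σ (s.pS v) = q := fun v hv m h => by
    have h1 : σ (s.pS v) * m = 1 ∨ σ (s.pS v) * m = -1 := by
      rw [← mul_self_eq_one_iff, ← pow_two, mul_pow, ← h]; exact hσ2 v hv
    refine ⟨h1, h1.elim (fun h => ⟨(m : ℚ)⁻¹, ?_⟩) fun h => ⟨-(m : ℚ)⁻¹, ?_⟩⟩
    · simpa using eq_inv_of_mul_eq_one_left h
    · have := eq_inv_of_mul_eq_one_left (a := -σ (s.pS v)) (b := m) (by rw [neg_mul, h, neg_neg])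
      simpa using neg_eq_iff_eq_neg.1 this
  have e1 : ∀ y, ∀ y' ∈ YY D e, ∑ χ ∈ irr (⊤ : Subgroup G), cc χ y * starRingEnd ℂ (cc χ y') =
      (Nat.card (⁅D, D⁆ : Subgroup G) : ℂ)⁻¹ ^ 2 * ∑ d ∈ el ⁅D, D⁆, ∑ d' ∈ el ⁅D, D⁆,
        σ (s.pS (y * d)) * σ (s.pS (y' * d')) *
          ∑ χ ∈ irr (⊤ : Subgroup G), s.cS χ (y * d) * s.cS χ (y' * d')⁻¹ := by
    intro y y' hy'
    have e0 : ∀ χ ∈ irr (⊤ : Subgroup G), cc χ y * starRingEnd ℂ (cc χ y') =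
        (Nat.card (⁅D, D⁆ : Subgroup G) : ℂ)⁻¹ ^ 2 * ∑ d ∈ el ⁅D, D⁆, ∑ d' ∈ el ⁅D, D⁆,
          σ (s.pS (y * d)) * σ (s.pS (y' * d')) * (s.cS χ (y * d) * s.cS χ (y' * d')⁻¹) := by
      intro χ hχ
      simp only [cc, lam, map_mul, map_sum, map_inv₀, map_natCast]
      rw [mul_mul_mul_comm, ← pow_two, Finset.sum_mul_sum]
      congr 1
      refine Finset.sum_congr rfl fun d _ => Finset.sum_congr rfl fun d' hd => ?_
      obtain ⟨m, h1, -⟩ := hcore y' hy' _ (hmem y' hy' d' hd).1 (hmem y' hy' d' hd).2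
      obtain ⟨-, q, hq⟩ := hq _ (hmem y' hy' d' hd).1 m h1
      have h2 : s.cS χ (y' * d')⁻¹ = starRingEnd ℂ (s.cS χ (y' * d')) := by
        rw [Src.cS, Src.cS, map_sum]
        exact Finset.sum_congr rfl fun t ht => (s.chr hχ (hTT t ht)).conj (hmem y' hy' d' hd).1
      rw [h2, hq, map_ratCast]; ring
    rw [Finset.sum_congr rfl e0, ← Finset.mul_sum, Finset.sum_comm]
    congr 1
    exact Finset.sum_congr rfl fun d hd => Finset.sum_comm.trans (Finset.sum_congr rfl fun d' _ =>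
      (Finset.mul_sum _ _ _).symm)
  obtain ⟨M, ζ, hM, hζ, hPM⟩ := exists_exp hp hD
  have hE : ∀ χ ∈ irr (⊤ : Subgroup G), Eqv p ζ D (s.cS χ) := fun χ hχ =>
    Eqv.sum _ fun q hq => (s.chr hχ (hTT q hq)).eqv hp hζ hPM
  have hE' : Eqv p ζ D s.pS := Eqv.sum _ fun χ hχ => Eqv.mul (by
    obtain ⟨m, hm⟩ := (s.chr hχ (one_mem _)).ip_nat (charOn_one D)
    simp only [one_mul, inv_one, mul_one] at hm
    rw [hm]; exact_mod_cast Eqv.rat D m) (hE χ hχ)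
  have hx1 : ∀ x ∈ YY D e, ∀ d ∈ el ⁅D, D⁆, x * d ∈ D ∧ ∃ m : ℕ, s.pS (x * d) = m ^ 2 ∧
      ∃ Δ : ℂ, IsIntegral ℤ Δ ∧ s.cS χ0 (x * d) = Δ * m := fun x hx d hd => by
    have := hmem x hx d hd
    obtain ⟨m, h1, h2, -⟩ := hcore x hx _ this.1 this.2
    exact ⟨this.1, m, h1, h2 χ0 h0⟩
  refine ⟨cc, fun y hy => ?_, fun y hy y' hy' hn => ?_, fun y hy hn => ?_,
    ne_zero_of_not_nu (hu 1 D.one_mem), ?_, fun k hk hs hk' y hy => ?_⟩
  · have e2 : ∀ d ∈ el ⁅D, D⁆, ∑ d' ∈ el ⁅D, D⁆, σ (s.pS (y * d)) * σ (s.pS (y * d')) *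
        ∑ χ ∈ irr (⊤ : Subgroup G), s.cS χ (y * d) * s.cS χ (y * d')⁻¹ = Nat.card D := by
      intro d hd
      obtain ⟨hv, hv'⟩ := hmem y hy d hd
      obtain ⟨m, h1, -, h2⟩ := hcore y hy _ hv hv'
      rw [← card_cls D (y * d), Nat.cast_mul, ← nsmul_eq_mul, ← sum_const]
      symm
      refine Finset.sum_bij_ne_zero (fun u _ _ => y⁻¹ * u)
        (fun u hu _ => mem_el.2 (cls_coset hv hv' hu).2) (fun _ _ _ _ _ _ h => mul_left_cancel h)
        (fun d' hd' h => ⟨y * d', ?_, card_ne' _, by simp⟩) fun u hu _ => ?_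
      · by_contra h3
        rw [h2 _ (hmem y hy d' hd').1 (hmem y hy d' hd').2, if_neg h3, mul_zero] at h
        exact h rfl
      · rw [mul_inv_cancel_left, h2 u (cls_coset hv hv' hu).1 (cls_coset hv hv' hu).2, if_pos hu]
        obtain ⟨a, ha, rfl⟩ := mem_cls.1 hu
        rw [hπ.1 a ha _ hv, ← h1, mul_left_comm, ← pow_two, hσ2 _ hv, mul_one]
    apply Complex.ofReal_injective
    rw [Complex.ofReal_sum, Finset.sum_congr rfl fun χ _ =>
      (show ((‖cc χ y‖ ^ 2 : ℝ) : ℂ) = cc χ y * starRingEnd ℂ (cc χ y) by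
        rw [← Complex.normSq_eq_norm_sq, ← Complex.mul_conj]), e1 y y hy,
      Finset.sum_congr rfl e2, sum_const, card_el, nsmul_eq_mul,
      ← (Subgroup.subgroupOf ⁅D, D⁆ D).card_mul_index,
      Nat.card_congr (Subgroup.subgroupOfEquivOfLe (comm_le D)).toEquiv, Subgroup.relIndex]
    have := card_ne' ⁅D, D⁆
    push_cast
    field_simp
  · rw [e1 y y' hy', Finset.sum_eq_zero, mul_zero]
    intro d hd
    refine Finset.sum_eq_zero fun d' hd' => ?_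
    rw [zero s hp hO hD (mem_YY.1 hy).2.1 (hmem y hy d hd).1 (hmem y hy d hd).2
      (hmem y' hy' d' hd').1 fun n hn' h => hn n hn' ?_, mul_zero]
    have h1 : y'⁻¹ * (n * y * n⁻¹) = d' * (n * d * n⁻¹)⁻¹ := by
      rw [eq_mul_inv_iff_mul_eq, mul_assoc, inv_mul_eq_iff_eq_mul, ← h]; group
    rw [h1]
    exact mul_mem (mem_el.1 hd') (inv_mem (conj_mem_comm hn'.1 (mem_el.1 hd)))
  · simp only [cc, lam, mul_assoc, Finset.sum_mul, ← Finset.mul_sum]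
    rw [Finset.sum_comm, Finset.sum_eq_zero, mul_zero]
    intro d hd
    have := zero s hp hO hD (mem_YY.1 hy).2.1 (hmem y hy d hd).1 (hmem y hy d hd).2 D.one_mem
      fun n _ h => hn (by
        rw [mul_inv_eq_one, mul_eq_left, mul_eq_one_iff_eq_inv] at h
        rw [h]; exact inv_mem (mem_el.1 hd))
    rw [inv_one] at this
    simp only [mul_left_comm _ (σ _)]
    rw [← Finset.mul_sum, this, mul_zero]
  · obtain ⟨n, r, hn, hr, hg⟩ := gal hp hO hM hζ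
    have hf := (hR χ0 h0).mul hσ
    have key : ∀ x ∈ YY D e, (n : ℝ) ≤ ∑ i, ‖cc χ0 (x ^ r i)‖ ^ 2 := by
      intro x hxY
      have hx := (mem_YY.1 hxY).1
      have hx1 := hx1 x hxY
      obtain ⟨j, hj⟩ : cc χ0 x ∈ PI p := by
        refine mul_mem (PI_card_inv hp (hD.to_le (comm_le D))) (sum_mem fun d hd => PI_int ?_)
        obtain ⟨h1, m, h2, Δ, h3, h4⟩ := hx1 d hd
        simp only
        rw [h4, mul_assoc, mul_comm (m : ℂ)]
        rcases (hq _ h1 m h2).1 with h | h <;> rw [h]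
        · rwa [mul_one]
        · rw [mul_neg_one]; exact h3.neg
      refine (amgm _ (fun _ => norm_nonneg _) (hg (cc χ0 x) (fun r => cc χ0 (x ^ r)) j
        (ne_zero_of_not_nu (not_nu_of_sub (hf.lam hp hO hD hx).2 (mul_not_nu (hu 1 D.one_mem)
          fun h => one_not_nu (O := O) ?_))) ?_ hj fun r hr =>
            ⟨(hf.lam hp hO hD (pow_mem hx r)).1, fun φ hφ => ?_⟩)).1
      · rw [← hσ2 1 D.one_mem, pow_two, mul_assoc]
        exact nu_mul_right h (mul_mem (hσ.val D.one_mem) (hπ.val D.one_mem))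
      · refine mul_mem (inv_mem (natCast_mem _ _)) (sum_mem fun d hd => ?_)
        obtain ⟨h1, m, h2, -⟩ := hx1 d hd
        obtain ⟨-, q, h3⟩ := hq _ h1 m h2
        exact mul_mem (hE χ0 h0 _ h1).1 (h3 ▸ SubfieldClass.ratCast_mem _ q)
      · simp only [cc, lam, map_mul, map_sum, map_inv₀, map_natCast]
        congr 1
        symm
        rw [← sum_inj (fun d => (x ^ r)⁻¹ * (x * d) ^ r)
          (fun d hd => mem_el.2 (pow_coset hx (by simpa using hd) r)) fun d hd d' hd' h =>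
            mul_left_cancel (pow_inj hp (PE_of_mem hD (hx1 d hd).1) (PE_of_mem hD (hx1 d' hd').1) hr
              (mul_left_cancel h))]
        refine Finset.sum_congr rfl fun d hd => Eq.symm ?_
        obtain ⟨h1, m, h2, -⟩ := hx1 d hd
        obtain ⟨-, q, h3⟩ := hq _ h1 m h2
        rw [mul_inv_cancel_left, (hE χ0 h0 _ h1).2 φ r hr hφ, ← (hE' _ h1).2 φ r hr hφ, h2, map_pow,
          map_natCast, ← h2, h3, map_ratCast]
    have h1 := Finset.sum_le_sum key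
    rw [Finset.sum_comm, Finset.sum_congr rfl fun i _ => sum_inj (W := YY D e) (fun y => y ^ r i)
      (fun y hy => mem_YY.2 ⟨pow_mem (mem_YY.1 hy).1 _,
        inherit hp hD (mem_YY.1 hy).1 (mem_YY.1 hy).2.1 (mem_YY.1 hy).2.2 (hr i)⟩)
      (fun y hy y' hy' h => pow_inj hp (PE_of_mem hD (mem_YY.1 hy).1) (PE_of_mem hD (mem_YY.1 hy').1)
        (hr i) h) fun y => ‖cc χ0 y‖ ^ 2] at h1
    simp only [sum_const, card_univ, Fintype.card_fin, nsmul_eq_mul] at h1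
    have hn' : (0 : ℝ) < n := by exact_mod_cast hn
    exact le_of_mul_le_mul_left (mul_comm ((YY D e).card : ℝ) n ▸ h1) hn'
  · obtain ⟨φ, hφ⟩ := exists_pow_hom (pow_pos hp.pos M) hζ
      (((Nat.Prime.coprime_iff_not_dvd hp).2 hk).symm.pow_right M)
    have hx1 := hx1 y hy
    simp only [cc, lam]
    congr 1
    rw [← sum_inj (W := el ⁅D, D⁆) (fun d => y⁻¹ * (y * d) ^ k)
      (fun d hd => mem_el.2 (by
        simpa [mul_assoc] using mul_mem (mem_el.1 hd) (hk' _ (hx1 d hd).1))) (fun d hd d' hd' h =>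
        mul_left_cancel (pow_inj hp (PE_of_mem hD (hx1 d hd).1) (PE_of_mem hD (hx1 d' hd').1) hk
          (mul_left_cancel h))) fun d => s.cS χ0 (y * d) * σ (s.pS (y * d))]
    refine Finset.sum_congr rfl fun d hd => ?_
    obtain ⟨h1, m, h2, -⟩ := hx1 d hd
    rw [mul_inv_cancel_left, cS_pow s hp hO hD hk hs h1 (irr_cls h0), ← (hE' _ h1).2 φ k hk hφ, h2,
      map_pow, map_natCast]

end Pool.Agent.P.MP_1a5b27_al
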