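import Pool.Agent.P.MP_1a5b27_al.B

set_option autoImplicit false
set_option linter.style.haveILetI false
set_option linter.unusedSectionVars false
set_option linter.unusedSimpArgs false

open Classical Finset Polynomial
open Pool.Agent.P.MP_ebbeae_al

namespace Pool.Agent.P.MP_1a5b27_al

theorem bessel {ι κ : Type} (I : Finset ι) (Y : Finset κ) (c : ι → κ → ℂ) (n : ℝ)
    (R : κ → κ → Prop) (m : ℕ) (hN : ∀ y ∈ Y, ∑ χ ∈ I, ‖c χ y‖ ^ 2 = n)
    (hZ : ∀ y ∈ Y, ∀ y' ∈ Y, ¬ R y y' → ∑ χ ∈ I, c χ y * starRingEnd ℂ (c χ y') = 0)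
    (h1 : ∀ y ∈ Y, (Y.filter (R y)).card ≤ m) (h2 : ∀ y' ∈ Y, (Y.filter (R · y')).card ≤ m)
    (hn : 0 ≤ n) (S : Finset ι) (hS : S ⊆ I) (a : κ → ℂ) (ha : ∀ χ ∈ S, ∀ y ∈ Y, c χ y = a y) :
    S.card * (∑ y ∈ Y, ‖a y‖ ^ 2) ^ 2 ≤ n * m * ∑ y ∈ Y, ‖a y‖ ^ 2 ∧
    ∀ (w : ι → ℂ) (w0 : ℂ), (∀ y ∈ Y, ∑ χ ∈ I, c χ y * w χ = 0) → (∀ χ ∈ S, w χ = w0) → w0 ≠ 0 →
      0 < S.card → 0 < ∑ y ∈ Y, ‖a y‖ ^ 2 →
      S.card * (∑ y ∈ Y, ‖a y‖ ^ 2) ^ 2 < n * m * ∑ y ∈ Y, ‖a y‖ ^ 2 := by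
  set A := ∑ y ∈ Y, ‖a y‖ ^ 2 with hA
  have hA0 : 0 ≤ A := Finset.sum_nonneg fun _ _ => sq_nonneg _
  let L : ι → ℂ := fun χ => ∑ y ∈ Y, starRingEnd ℂ (a y) * c χ y
  have e0 : ∀ χ ∈ S, L χ = (A : ℂ) := fun χ hχ => by
    rw [hA, Complex.ofReal_sum]
    refine Finset.sum_congr rfl fun y hy => ?_
    rw [ha χ hχ y hy, ← Complex.normSq_eq_norm_sq, mul_comm, Complex.mul_conj]
  have e1 : ∀ χ ∈ S, ‖L χ‖ ^ 2 = A ^ 2 := fun χ hχ => by
    rw [e0 χ hχ, Complex.norm_real, Real.norm_of_nonneg hA0]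
  have e2 : ((∑ χ ∈ I, ‖L χ‖ ^ 2 : ℝ) : ℂ) = ∑ y ∈ Y, ∑ y' ∈ Y, starRingEnd ℂ (a y) * a y' *
      ∑ χ ∈ I, c χ y * starRingEnd ℂ (c χ y') := by
    rw [Complex.ofReal_sum]
    simp only [Finset.mul_sum]
    rw [Finset.sum_congr rfl fun y _ => Finset.sum_comm, Finset.sum_comm]
    refine Finset.sum_congr rfl fun χ _ => ?_
    rw [← Complex.normSq_eq_norm_sq, ← Complex.mul_conj]
    simp only [L, map_sum, map_mul, Complex.conj_conj]
    rw [Finset.sum_mul_sum]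
    exact Finset.sum_congr rfl fun y _ => Finset.sum_congr rfl fun y' _ => by ring
  have e3 : ∀ y ∈ Y, ∀ y' ∈ Y, ‖starRingEnd ℂ (a y) * a y' *
      ∑ χ ∈ I, c χ y * starRingEnd ℂ (c χ y')‖ ≤
      (if R y y' then n / 2 * ‖a y‖ ^ 2 else 0) + if R y y' then n / 2 * ‖a y'‖ ^ 2 else 0 := by
    intro y hy y' hy'
    split_ifs with h
    · have b1 : ‖∑ χ ∈ I, c χ y * starRingEnd ℂ (c χ y')‖ ≤ n := by
        refine (norm_sum_le _ _).trans ?_
        have : ∀ χ ∈ I, ‖c χ y * starRingEnd ℂ (c χ y')‖ ≤ (‖c χ y‖ ^ 2 + ‖c χ y'‖ ^ 2) / 2 :=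
          fun χ _ => by
            rw [norm_mul, Complex.norm_conj]; nlinarith [sq_nonneg (‖c χ y‖ - ‖c χ y'‖)]
        refine (Finset.sum_le_sum this).trans ?_
        rw [← Finset.sum_div, Finset.sum_add_distrib, hN y hy, hN y' hy']; linarith
      rw [norm_mul, norm_mul, Complex.norm_conj]
      have b2 := mul_le_mul_of_nonneg_left b1 (mul_nonneg (norm_nonneg (a y)) (norm_nonneg (a y')))
      nlinarith [mul_nonneg hn (sq_nonneg (‖a y‖ - ‖a y'‖))]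
    · rw [hZ y hy y' hy' h]; simp
  have e4 : ∑ χ ∈ I, ‖L χ‖ ^ 2 ≤ n * m * A := by
    have b1 : ∑ χ ∈ I, ‖L χ‖ ^ 2 = ‖((∑ χ ∈ I, ‖L χ‖ ^ 2 : ℝ) : ℂ)‖ := by
      rw [Complex.norm_real, Real.norm_of_nonneg (Finset.sum_nonneg fun _ _ => sq_nonneg _)]
    rw [b1, e2]
    refine (norm_sum_le _ _).trans ((Finset.sum_le_sum fun y hy => (norm_sum_le _ _).trans
      (Finset.sum_le_sum fun y' hy' => e3 y hy y' hy')).trans ?_)
    simp only [Finset.sum_add_distrib]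
    rw [Finset.sum_comm (f := fun y y' => if R y y' then n / 2 * ‖a y'‖ ^ 2 else 0)]
    have b2 : ∀ y ∈ Y, ∑ y' ∈ Y, (if R y y' then n / 2 * ‖a y‖ ^ 2 else 0) ≤
        m * (n / 2) * ‖a y‖ ^ 2 := fun y hy => by
      rw [← Finset.sum_filter, sum_const, nsmul_eq_mul, mul_assoc]
      exact mul_le_mul_of_nonneg_right (by exact_mod_cast h1 y hy) (by positivity)
    have b3 : ∀ y ∈ Y, ∑ y' ∈ Y, (if R y' y then n / 2 * ‖a y‖ ^ 2 else 0) ≤
        m * (n / 2) * ‖a y‖ ^ 2 := fun y hy => by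
      rw [← Finset.sum_filter, sum_const, nsmul_eq_mul, mul_assoc]
      exact mul_le_mul_of_nonneg_right (by exact_mod_cast h2 y hy) (by positivity)
    have b4 := Finset.sum_le_sum b2
    have b5 := Finset.sum_le_sum b3
    rw [← Finset.mul_sum, ← hA] at b4 b5
    linarith
  have e5 : (S.card : ℝ) * A ^ 2 = ∑ χ ∈ S, ‖L χ‖ ^ 2 := by
    rw [Finset.sum_congr rfl e1, sum_const, nsmul_eq_mul]
  rw [e5]
  refine ⟨(Finset.sum_le_sum_of_subset_of_nonneg hS fun _ _ _ => sq_nonneg _).trans e4,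
    fun w w0 w1 w2 w3 w4 w5 => lt_of_lt_of_le ?_ e4⟩
  by_cases h : ∃ χ ∈ I, χ ∉ S ∧ L χ ≠ 0
  · obtain ⟨χ, b1, b2, b3⟩ := h
    exact Finset.sum_lt_sum_of_subset hS b1 b2 (by positivity) fun _ _ _ => sq_nonneg _
  · push Not at h
    have b1 : ∑ χ ∈ I, L χ * w χ = 0 := by
      simp only [L, Finset.sum_mul, mul_assoc]
      rw [Finset.sum_comm]
      exact Finset.sum_eq_zero fun y hy => by rw [← Finset.mul_sum, w1 y hy, mul_zero]
    rw [← Finset.sum_subset hS fun χ b2 b3 => by rw [h χ b2 b3, zero_mul],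
      Finset.sum_congr rfl fun χ hχ => by rw [e0 χ hχ, w2 χ hχ], sum_const, nsmul_eq_mul] at b1
    exact absurd b1 (mul_ne_zero (by exact_mod_cast w4.ne')
      (mul_ne_zero (by exact_mod_cast w5.ne') w3))

variable {G : Type} [Group G] [Fintype G] {O : ValuationSubring ℂ} {p : ℕ}

/-- Fusion of cosets. -/
def Rel (D : Subgroup G) (e : GA (kk O) G) (y y' : G) : Prop :=
  ∃ n ∈ NE D e, y'⁻¹ * (n * y * n⁻¹) ∈ ⁅D, D⁆

theorem Rel.symm {D : Subgroup G} {e : GA (kk O) G} {y y' : G} (h : Rel D e y y') :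
    Rel D e y' y := by
  obtain ⟨n, hn, h⟩ := h
  refine ⟨n⁻¹, inv_mem hn, ?_⟩
  simpa [mul_assoc] using conj_mem_comm (inv_mem hn).1 (inv_mem h)

theorem card_rel {D : Subgroup G} {e : GA (kk O) G} (he : IsCentralIdem (CC D) e) (Y : Finset G)
    {y : G} (hy : y ∈ D) :
    (Y.filter (Rel D e y)).card ≤ (TT D e).card * Nat.card (⁅D, D⁆ : Subgroup G) := by
  rw [← card_el, ← Finset.card_product]
  refine le_trans (Finset.card_le_card (t := (TT D e ×ˢ el ⁅D, D⁆).image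
    fun z => z.1.out * y * z.1.out⁻¹ * z.2) fun y' hy' => ?_) Finset.card_image_le
  obtain ⟨n, hn, h⟩ := (mem_filter.1 hy').2
  obtain ⟨g, hg⟩ := QuotientGroup.mk_out_eq_mul (D ⊔ CC D) n
  obtain ⟨d, hd, h1⟩ := inner_of_mem g.2
  have h2 : y⁻¹ * (d * y * d⁻¹) ∈ ⁅D, D⁆ := by
    simpa [commutatorElement_def, mul_assoc] using
      Subgroup.commutator_mem_commutator (D.inv_mem hy) hd
  refine mem_image.2 ⟨(QuotientGroup.mk n, (y'⁻¹ * (n * y * n⁻¹) *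
    (n * (y⁻¹ * (d * y * d⁻¹)) * n⁻¹))⁻¹), mem_product.2 ⟨mem_filter.2
    ⟨mem_univ _, (out_mem (DC_le_NE he) n).2 hn⟩,
    mem_el.2 (inv_mem (mul_mem h (conj_mem_comm hn.1 h2)))⟩, ?_⟩
  simp only [hg, ← h1 y hy]
  group

theorem card_TT {D : Subgroup G} {e : GA (kk O) G} :
    (TT D e).card ≤ (D ⊔ CC D).relIndex (NE D e) := by
  rw [Subgroup.relIndex, Subgroup.index_eq_card, ← Fintype.card_coe, ← Nat.card_eq_fintype_card]
  refine Nat.card_le_card_of_injective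
    (fun q => QuotientGroup.mk ⟨q.1.out, (mem_filter.1 q.2).2⟩) fun q q' h => ?_
  have h1 := Subgroup.mem_subgroupOf.1 (QuotientGroup.eq.1 h)
  have h2 : (QuotientGroup.mk q.1.out : G ⧸ (D ⊔ CC D)) = QuotientGroup.mk q'.1.out :=
    QuotientGroup.eq.2 h1
  rw [QuotientGroup.out_eq', QuotientGroup.out_eq'] at h2
  exact Subtype.ext h2

theorem irr_pow {χ : G → ℂ} (h : IsIrr χ) {k : ℕ} (hk : k.Coprime (Nat.card G)) :
    IsIrr fun g => χ (g ^ k) := by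
  have hn : 0 < Nat.card G := Nat.card_pos
  have hζ := Complex.isPrimitiveRoot_exp _ hn.ne'
  obtain ⟨φ, hφ⟩ := exists_pow_hom hn hζ hk
  have : (fun g => χ (g ^ k)) = φ ∘ χ :=
    funext fun g => (h.isChar.map_pow hn hζ pow_card_eq_one' hφ).symm
  rw [this]; exact h.twist φ

theorem fixed (hp : p.Prime) (hp2 : p ≠ 2) (hO : (p : O) ∈ mx O) {b : GA (kk O) G}
    {D : Subgroup G} (hD : IsPGroup p D) {e : GA (kk O) G} (s : Src p b D e)
    (hT : ¬ p ∣ (TT D e).card)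
    (hY : (D ⊔ CC D).relIndex (NE D e) * Nat.card D ≤ p * (YY D e).card)
    {χ : G → ℂ} (h0 : IsIrr χ) (h0' : ev χ s.i ∉ O.nonunits) {k a : ℕ}
    (hk : k ^ p ^ a ≡ 1 [MOD Nat.card G]) (hkp : ¬ p ∣ k) (hs : ∀ s : G, preg p s → s ^ k = s)
    (hy : ∀ y ∈ D, y⁻¹ * y ^ k ∈ ⁅D, D⁆) : (fun g => χ (g ^ k)) = χ := by
  have hY0 : 0 < (YY D e).card := Nat.pos_of_ne_zero fun h => by
    rw [h, mul_zero, Nat.le_zero, mul_eq_zero] at hY
    exact hY.elim Subgroup.index_ne_zero_of_finite Nat.card_pos.ne'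
  obtain ⟨x, hx⟩ := Finset.card_pos.1 hY0
  obtain ⟨cc, c1, c2, c5, c6, c3, c4⟩ := data hp hp2 hO hD s hT hx (mem_irr_top h0) h0'
  let T : (G → ℂ) → G → ℂ := fun f g => f (g ^ k)
  have hT1 : ∀ j, T^[j] χ = fun g => χ (g ^ k ^ j) := fun j => by
    induction j with
    | zero => simp
    | succ j ih =>
      rw [Function.iterate_succ_apply', ih]
      exact funext fun g => by simp only [T]; rw [← pow_mul, pow_succ']
  have hper : Function.IsPeriodicPt T (p ^ a) χ := by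
    rw [Function.IsPeriodicPt, Function.IsFixedPt, hT1]
    refine funext fun g => ?_
    rw [pow_eq_pow_iff_modEq.2 (hk.of_dvd (orderOf_dvd_natCard g)), pow_one]
  obtain ⟨i, -, hi⟩ := (Nat.dvd_prime_pow hp).1 hper.minimalPeriod_dvd
  rcases Nat.eq_zero_or_pos i with rfl | hi0
  · exact Function.minimalPeriod_eq_one_iff_isFixedPt.1 hi
  exfalso
  have hle : p ≤ Function.minimalPeriod T χ := hi ▸ Nat.le_self_pow hi0.ne' p
  have hco : k.Coprime (Nat.card G) := Nat.coprime_of_mul_modEq_one (k ^ (p ^ a - 1)) (by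
    rwa [← pow_succ', Nat.sub_add_cancel (Nat.one_le_pow _ _ hp.pos)])
  have hs' : ∀ j, ∀ s : G, preg p s → s ^ k ^ j = s := fun j s h => by
    induction j with
    | zero => simp
    | succ j ih => rw [pow_succ, pow_mul, ih, hs s h]
  have hy' : ∀ j, ∀ y ∈ D, y⁻¹ * y ^ k ^ j ∈ ⁅D, D⁆ := fun j y h => by
    induction j with
    | zero => simp
    | succ j ih =>
      have := mul_mem ih (hy _ (pow_mem h (k ^ j)))
      rwa [mul_assoc, mul_inv_cancel_left, ← pow_mul, ← pow_succ] at this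
  have he : IsCentralIdem (CC D) e := (s.ED ▸ s.blk D le_rfl).1
  have hb := bessel (irr (⊤ : Subgroup G)) (YY D e) cc _ (Rel D e) _ c1
    (fun y h y' h' hr => c2 y h y' h' fun n hn h1 => hr ⟨n, hn, h1⟩)
    (fun y h => card_rel he _ (mem_YY.1 h).1)
    (fun y h => le_trans (Finset.card_le_card fun z hz => mem_filter.2
      ⟨(mem_filter.1 hz).1, (mem_filter.1 hz).2.symm⟩) (card_rel he _ (mem_YY.1 h).1))
    (Nat.cast_nonneg _) ((range p).image fun j => T^[j] χ) (fun f hf => by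
      obtain ⟨j, -, rfl⟩ := mem_image.1 hf
      rw [hT1]
      exact mem_irr_top (irr_pow h0 (hco.pow_left j))) (cc χ) (fun f hf y h => by
      obtain ⟨j, -, rfl⟩ := mem_image.1 hf
      rw [hT1]
      exact c4 _ (fun h1 => hkp (hp.dvd_of_dvd_pow h1)) (hs' j) (hy' j) y h)
  have hb2 := fun h => hb.2 (fun f => s.cS f 1) _ h (fun f hf => by
    obtain ⟨j, -, rfl⟩ := mem_image.1 hf
    rw [hT1, cS_pow s hp hO hD (fun h1 => hkp (hp.dvd_of_dvd_pow h1)) (hs' j) D.one_mem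
      (irr_cls (mem_irr_top h0)), one_pow]) c6
  replace hb := hb.1
  rw [Finset.card_image_of_injOn (Function.iterate_injOn_Iio_minimalPeriod.mono fun j hj =>
    lt_of_lt_of_le (mem_range.1 hj) hle), card_range] at hb hb2
  set A := ∑ y ∈ YY D e, ‖cc χ y‖ ^ 2
  have hA : 0 < A := lt_of_lt_of_le (by exact_mod_cast hY0) c3
  rw [pow_two, ← mul_assoc] at hb hb2
  have h2 : (Nat.card (⁅D, D⁆ : Subgroup G) : ℝ) * ⁅D, D⁆.relIndex D = Nat.card D := by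
    rw [← Nat.cast_mul, ← (Subgroup.subgroupOf ⁅D, D⁆ D).card_mul_index,
      Nat.card_congr (Subgroup.subgroupOfEquivOfLe (comm_le D)).toEquiv, Subgroup.relIndex]
  have h4 : (p : ℝ) * (YY D e).card ≤ p * A := mul_le_mul_of_nonneg_left c3 (Nat.cast_nonneg _)
  have h5 : (⁅D, D⁆.relIndex D : ℝ) * ((TT D e).card * Nat.card (⁅D, D⁆ : Subgroup G) : ℕ) ≤
      (D ⊔ CC D).relIndex (NE D e) * Nat.card D := by
    rw [Nat.cast_mul, mul_comm, mul_assoc, h2]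
    exact mul_le_mul_of_nonneg_right (by exact_mod_cast card_TT) (Nat.cast_nonneg _)
  by_cases h : ∃ y ∈ YY D e, y ∈ ⁅D, D⁆
  · obtain ⟨y, y1, y2⟩ := h
    obtain ⟨-, y3, y4⟩ := mem_YY.1 y1
    have y5 : NE D e ≤ D ⊔ CC D := fun n hn =>
      y4 n hn.1 hn.2 (mul_mem (inv_mem y2) (conj_mem_comm hn.1 y2))
    have y6 : YY D e = el D := Finset.filter_true_of_mem fun z _ =>
      ⟨fun Q f g q1 _ => y3 Q f g q1 ⟨1, Q.one_mem, by simpa using y2⟩,
        fun n n1 n2 _ => y5 ⟨n1, n2⟩⟩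
    have h1 := le_of_mul_le_mul_right hb hA
    rw [Subgroup.relIndex_eq_one.2 y5] at h5
    rw [y6, card_el] at h4
    have h6 : (1 : ℝ) < p := by exact_mod_cast hp.one_lt
    have h7 : (0 : ℝ) < Nat.card D := by exact_mod_cast Nat.card_pos
    push_cast at h5 h1
    nlinarith
  · push Not at h
    have h1 := lt_of_mul_lt_mul_right (hb2 (fun y hy => c5 y hy (h y hy)) hp.pos hA) hA.le
    have h6 : ((D ⊔ CC D).relIndex (NE D e) : ℝ) * Nat.card D ≤ p * (YY D e).card := by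
      exact_mod_cast hY
    linarith

end Pool.Agent.P.MP_1a5b27_al
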