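import Pool.Agent.P.MP_1a5b27_al.C

set_option autoImplicit false
set_option linter.style.haveILetI false
set_option linter.unusedSectionVars false
set_option linter.unusedSimpArgs false

open Classical Finset Polynomial
open Pool.Agent.P.MP_ebbeae_al

namespace Pool.Agent.P.MP_1a5b27_al

variable {G : Type} [Group G] [Fintype G] {O : ValuationSubring ℂ} {p : ℕ}

theorem pow_mem_comm (hp : p.Prime) {D : Subgroup G} (hD : IsPGroup p D) {m : ℕ}
    (hm : Monoid.exponent (Abelianization D) ≤ p ^ m) {y : G} (hy : y ∈ D) :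
    y ^ p ^ m ∈ ⁅D, D⁆ := by
  haveI := Fact.mk hp
  obtain ⟨i, hi⟩ := IsPGroup.iff_orderOf.1 (hD.of_surjective (Abelianization.of (G := D))
    (QuotientGroup.mk'_surjective _)) (Abelianization.of ⟨y, hy⟩)
  have h1 : p ^ i ≤ p ^ m := hi ▸ (Nat.le_of_dvd (Monoid.ExponentExists.of_finite.exponent_pos)
    (Monoid.order_dvd_exponent _)).trans hm
  have h2 : Abelianization.of ((⟨y, hy⟩ : D) ^ p ^ m) = 1 := by
    rw [map_pow, ← orderOf_dvd_iff_pow_eq_one, hi]
    exact pow_dvd_pow p ((Nat.pow_le_pow_iff_right hp.one_lt).1 h1)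
  rw [← Subgroup.map_subtype_commutator]
  exact ⟨_, (QuotientGroup.eq_one_iff _).1 h2, rfl⟩

theorem main (hp : p.Prime) (hp2 : p ≠ 2) (hO : (p : O) ∈ mx O) {b : GA (kk O) G}
    (hb : IsBlock ⊤ b) {D : Subgroup G} (hD : IsDefectGroup p b D) {e : GA (kk O) G}
    (he : IsBlock (CC D) e) (hbe : br D b * e = e) {N : Subgroup G}
    (hN : ∀ n, n ∈ N ↔ cs n D = D ∧ cj n e = e)
    (hY : (D ⊔ CC D).relIndex N * Nat.card D ≤ p * Set.ncard {x | x ∈ D ∧ Ctrl D e x ∧ Reg D e x})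
    {m : ℕ} (hm1 : 1 ≤ m) (hm : Monoid.exponent (Abelianization D) ≤ p ^ m)
    (V : FDRep ℂ G) (hV : CategoryTheory.Simple V) (hVb : InBlock O b V.character)
    (hz : padicValNat p (Module.finrank ℂ V) + padicValNat p (Nat.card D) =
      padicValNat p (Nat.card G)) {k : ℕ}
    (k1 : k ≡ 1 [MOD Nat.card G / p ^ (Nat.card G).factorization p])
    (k2 : k ≡ 1 + p ^ m [MOD p ^ (Nat.card G).factorization p]) (g : G) :
    V.character (g ^ k) = V.character g := by
  obtain ⟨s⟩ := exists_Src hp hO hb hD he hbe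
  have h1 : IsIrr V.character := ⟨V, hV, rfl⟩
  obtain ⟨z, h2, h3, h4⟩ := hVb
  have h5 : ev V.character s.i ∉ O.nonunits := by
    refine s.hz hb hp hO (mem_irr_top h1) ?_ (FDRep.char_one V) hz
    rw [← show red z = b from ga_ext fun g => (red_coeff z g).trans (h3 g), ← h2.eq_lf]
    exact h4
  obtain rfl : N = NE D e := Subgroup.ext hN
  rw [show {x | x ∈ D ∧ Ctrl D e x ∧ Reg D e x} = ↑(YY D e) from Set.ext fun x => mem_YY.symm,
    Set.ncard_coe_finset] at hY
  have hn : Nat.card G ≠ 0 := Nat.card_pos.ne'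
  set a := (Nat.card G).factorization p with ha
  have hG : p ^ a * (Nat.card G / p ^ a) = Nat.card G := Nat.ordProj_mul_ordCompl_eq_self _ _
  have hc : (p ^ a).Coprime (Nat.card G / p ^ a) := (Nat.coprime_ordCompl hp hn).pow_left a
  rcases Nat.eq_zero_or_pos a with h0 | h0
  · rw [h0, pow_zero, Nat.div_one] at k1
    rw [pow_eq_pow_iff_modEq.2 (k1.of_dvd (orderOf_dvd_natCard g)), pow_one]
  have k3 : k ≡ 1 [MOD p] := (k2.of_dvd (dvd_pow_self p h0.ne')).trans
    (by simpa using (Nat.ModEq.refl 1).add ((Nat.modEq_zero_iff_dvd).2 (dvd_pow_self p (by omega))))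
  refine congrFun (fixed (a := a) hp hp2 hO hD.1 s (s.index hp hO hb.1.2.2 hD.1 hbe) hY h1 h5 ?_
    (fun h => ?_) (fun s hs => ?_) fun y hy => ?_) g
  · rw [← hG, ← Nat.modEq_and_modEq_iff_modEq_mul hc]
    refine ⟨?_, by simpa using k1.pow (p ^ a)⟩
    have := dvd_sub_pow_of_dvd_sub (R := ℤ) (p := p) (a := 1) (b := k) (by simpa using k3.dvd) a
    rw [Nat.modEq_iff_dvd]
    push_cast
    exact (pow_dvd_pow _ a.le_succ).trans (by simpa using this)
  · exact hp.one_lt.ne' (Nat.dvd_one.1 ((k3.dvd_iff dvd_rfl).1 h))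
  · have : orderOf s ∣ Nat.card G / p ^ a :=
      (((Nat.Prime.coprime_iff_not_dvd hp).2 hs).symm.pow_right a).dvd_of_dvd_mul_left
        (hG.symm ▸ orderOf_dvd_natCard s)
    rw [pow_eq_pow_iff_modEq.2 (k1.of_dvd this), pow_one]
  · haveI := Fact.mk hp
    obtain ⟨i, hi⟩ := IsPGroup.iff_orderOf.1 hD.1 ⟨y, hy⟩
    rw [← Subgroup.orderOf_coe] at hi
    have : orderOf y ∣ p ^ a := by
      have h6 := orderOf_dvd_natCard y
      rw [show orderOf y = p ^ i from hi] at h6 ⊢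
      exact pow_dvd_pow p ((hp.pow_dvd_iff_le_factorization hn).1 h6)
    rw [pow_eq_pow_iff_modEq.2 (k2.of_dvd this), pow_add, pow_one, inv_mul_cancel_left]
    exact pow_mem_comm hp hD.1 hm hy

end Pool.Agent.P.MP_1a5b27_al
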